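import Pool.Agent.SHA.Stmts

/-!
# Row TRV of the squad SHA (problem MP_65fb70_co)
-/

set_option autoImplicit false

namespace Pool.Agent.SHA.H86

open Pool.Agent.Helper18_Helly Pool.Agent.SHA

universe u

open Classical in
theorem trv : TRVStmt.{u} := by
  intro U X s Q hs hP
  obtain ⟨W, hWX, hWc, hWO, _⟩ := hP.exists_finset
  have hW1 : ∀ O ∈ Q, (W.filter (fun f => f ∈ O)).card = 1 := by
    intro O hO
    have h1 := hWO O hO
    have h2 : (W.filter (fun x => x ∈ O)).card + (W.filter (fun x => ¬ x ∈ O)).card = W.card := by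
      rw [← Finset.card_union_of_disjoint, Finset.filter_union_filter_not_eq]
      exact Finset.disjoint_filter_filter_not _ _ _
    omega
  by_cases h : ((s - 1 : ℕ) : ℕ∞) ≤ (X \ (W : Set U)).encard
  · left
    obtain ⟨A, hA, hAc⟩ := exists_finset_of_le h
    have hdisj : Disjoint W A := by
      rw [Finset.disjoint_left]
      intro x hxW hxA
      exact (hA (Finset.mem_coe.mpr hxA)).2 (Finset.mem_coe.mpr hxW)
    refine ⟨W ∪ A, ?_, ?_, ?_⟩
    · rw [Finset.coe_union]
      exact Set.union_subset hWX (hA.trans Set.sdiff_subset)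
    · rw [Finset.card_union_of_disjoint hdisj, hWc, hAc]
    · intro O hO
      rw [Finset.filter_union]
      have h1 := Finset.card_union_le (W.filter (fun f => f ∈ O)) (A.filter (fun f => f ∈ O))
      have h2 := Finset.card_filter_le A (fun f => f ∈ O)
      have h3 := hW1 O hO
      omega
  · right
    intro T hT O hO
    have hsub : ((T \ W : Finset U) : Set U) ⊆ X \ (W : Set U) := by
      intro x hx
      rw [Finset.coe_sdiff] at hx
      exact ⟨hT hx.1, hx.2⟩
    have h1 : ((T \ W).card : ℕ∞) < ((s - 1 : ℕ) : ℕ∞) := by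
      rw [← Set.encard_coe_eq_coe_finsetCard]
      exact (Set.encard_le_encard hsub).trans_lt (not_le.mp h)
    have h2 : (T \ W).card < s - 1 := by exact_mod_cast h1
    have h3 : T.filter (fun f => f ∈ O) ⊆ W.filter (fun f => f ∈ O) ∪ (T \ W) := by
      intro x hx
      rw [Finset.mem_filter] at hx
      by_cases hxW : x ∈ W
      · exact Finset.mem_union_left _ (Finset.mem_filter.mpr ⟨hxW, hx.2⟩)
      · exact Finset.mem_union_right _ (Finset.mem_sdiff.mpr ⟨hx.1, hxW⟩)
    have h4 := (Finset.card_le_card h3).trans (Finset.card_union_le _ _)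
    have h5 := hW1 O hO
    omega

end Pool.Agent.SHA.H86
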